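import Pool.Agent.Helper34.Riesz.Defs2

set_option autoImplicit false
open MeasureTheory Set Filter Topology
open scoped ENNReal NNReal

namespace Helper34.Riesz

/-- Ordered injective families and finite sets give the same energies. -/
theorem range_eq {T U : Type*} (N : ℕ) (P : T → Prop) (Q : U → Prop) (φ : U → T)
    (hφ : Function.Injective φ) (hPQ : ∀ t, P t ↔ ∃ u, Q u ∧ φ u = t)
    (f : T → T → ℝ) (g : U → U → ℝ) (hfg : ∀ u v, f (φ u) (φ v) = g u v) :
    Set.range (fun x : {x : Fin N → T // Function.Injective x ∧ ∀ i, P (x i)} =>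
        ∑ i : Fin N, ∑ j ∈ Finset.univ.erase i, f (x.1 i) (x.1 j)) =
      {e : ℝ | ∃ Y : Finset U, Y.card = N ∧ (∀ x ∈ Y, Q x) ∧
        e = open Classical in ∑ x ∈ Y, ∑ y ∈ Y.erase x, g x y} := by
  classical
  have key : ∀ u : Fin N ↪ U, ∑ i : Fin N, ∑ j ∈ Finset.univ.erase i, f (φ (u i)) (φ (u j)) =
      ∑ x ∈ Finset.univ.map u, ∑ y ∈ (Finset.univ.map u).erase x, g x y := by
    intro u
    rw [Finset.sum_map]
    refine Finset.sum_congr rfl fun i _ => ?_
    rw [← Finset.map_erase, Finset.sum_map]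
    exact Finset.sum_congr rfl fun j _ => hfg _ _
  ext e
  constructor
  · rintro ⟨⟨x, hx, hP⟩, rfl⟩
    choose u hu hxu using fun i => (hPQ _).1 (hP i)
    have hinj : Function.Injective u := by
      intro i j hij
      apply hx
      rw [← hxu i, ← hxu j, hij]
    refine ⟨Finset.univ.map ⟨u, hinj⟩, by simp, ?_, ?_⟩
    · intro y hy
      obtain ⟨i, _, rfl⟩ := Finset.mem_map.1 hy
      exact hu i
    · convert key ⟨u, hinj⟩ using 3 with i _ j _
      all_goals simp [hxu]
  · rintro ⟨Y, hY, hQ, rfl⟩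
    let e : Fin N ≃ Y := (Finset.equivFinOfCardEq hY).symm
    have hinj : Function.Injective fun i => (e i : U) := fun i j hij =>
      e.injective (Subtype.ext hij)
    refine ⟨⟨fun i => φ (e i), hφ.comp hinj, fun i => (hPQ _).2 ⟨_, hQ _ (e i).2, rfl⟩⟩, ?_⟩
    have hYm : Finset.univ.map ⟨fun i => (e i : U), hinj⟩ = Y := by
      ext y
      simp only [Finset.mem_map, Finset.mem_univ, Function.Embedding.coeFn_mk, true_and]
      constructor
      · rintro ⟨i, rfl⟩
        exact (e i).2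
      · intro hy
        exact ⟨e.symm ⟨y, hy⟩, by simp⟩
    have h1 := key ⟨fun i => (e i : U), hinj⟩
    rw [hYm] at h1
    convert h1 using 1
    rfl

end Helper34.Riesz

namespace Helper23.Riesz

open Helper34.Riesz

lemma trans_sph_range (s : ℝ) (d N : ℕ) :
    Set.range (fun x : {x : Fin N → Fin (d+1) → ℝ //
              Function.Injective x ∧ ∀ i, ∑ k : Fin (d+1), (x i k) ^ 2 = 1} =>
            ∑ i : Fin N, ∑ j ∈ Finset.univ.erase i,
              (Real.sqrt (∑ k : Fin (d+1), (x.1 i k - x.1 j k) ^ 2)) ^ (-s)) =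
      {e : ℝ | ∃ Y : Finset (S d), Y.card = N ∧ e = en s Y} := by
  have h := range_eq (T := Fin (d+1) → ℝ) (U := S d) N (fun t => ∑ k : Fin (d+1), (t k) ^ 2 = 1)
    (fun _ => True) (fun u => WithLp.ofLp (u : E d))
    (by
      intro u v huv
      apply Subtype.ext
      exact WithLp.ofLp_injective _ huv)
    (by
      intro t
      constructor
      · intro ht
        refine ⟨⟨WithLp.toLp 2 t, ?_⟩, trivial, rfl⟩
        rw [mem_sphere_zero_iff_norm, EuclideanSpace.norm_eq]
        simp [ht]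
      · rintro ⟨⟨u, hu⟩, -, rfl⟩
        rw [mem_sphere_zero_iff_norm, EuclideanSpace.norm_eq, Real.sqrt_eq_one] at hu
        simpa using hu)
    (fun t t' => (Real.sqrt (∑ k : Fin (d+1), (t k - t' k) ^ 2)) ^ (-s))
    (fun x y => K s x y)
    (by
      intro u v
      simp only [K, Subtype.dist_eq, EuclideanSpace.dist_eq, Real.dist_eq, sq_abs])
  rw [h]
  ext e
  constructor
  · rintro ⟨Y, hY, -, he⟩
    refine ⟨Y, hY, ?_⟩
    rw [he, en]
    congr!
  · rintro ⟨Y, hY, he⟩
    refine ⟨Y, hY, fun _ _ => trivial, ?_⟩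
    rw [he, en]
    congr!

theorem trans_min (s : ℝ) (d N : ℕ) :
    (⨅ x : {x : Fin N → Fin (d+1) → ℝ //
              Function.Injective x ∧ ∀ i, ∑ k : Fin (d+1), (x i k) ^ 2 = 1},
            ∑ i : Fin N, ∑ j ∈ Finset.univ.erase i,
              (Real.sqrt (∑ k : Fin (d+1), (x.1 i k - x.1 j k) ^ 2)) ^ (-s)) = Emin s d N := by
  unfold iInf Emin
  rw [trans_sph_range]

theorem trans_max (s : ℝ) (d N : ℕ) :
    (⨆ x : {x : Fin N → Fin (d+1) → ℝ //
              Function.Injective x ∧ ∀ i, ∑ k : Fin (d+1), (x i k) ^ 2 = 1},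
            ∑ i : Fin N, ∑ j ∈ Finset.univ.erase i,
              (Real.sqrt (∑ k : Fin (d+1), (x.1 i k - x.1 j k) ^ 2)) ^ (-s)) = Emax s d N := by
  unfold iSup Emax
  rw [trans_sph_range]

theorem trans_cube (s : ℝ) (d N : ℕ) :
    (⨅ x : {x : Fin N → Fin d → ℝ //
              Function.Injective x ∧ ∀ i k, 0 ≤ x i k ∧ x i k ≤ 1},
            ∑ i : Fin N, ∑ j ∈ Finset.univ.erase i,
              (Real.sqrt (∑ k : Fin d, (x.1 i k - x.1 j k) ^ 2)) ^ (-s)) = Ecube s d N := by
  have h := range_eq (T := Fin d → ℝ) (U := R d) N (fun t => ∀ k, 0 ≤ t k ∧ t k ≤ 1)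
    (fun x => x ∈ cube (0 : R d) 1) (fun u => WithLp.ofLp u)
    (by
      intro u v huv
      exact WithLp.ofLp_injective _ huv)
    (by
      intro t
      constructor
      · intro ht
        refine ⟨WithLp.toLp 2 t, ?_, rfl⟩
        intro k
        simpa using ht k
      · rintro ⟨u, hu, rfl⟩ k
        simpa using hu k)
    (fun t t' => (Real.sqrt (∑ k : Fin d, (t k - t' k) ^ 2)) ^ (-s))
    (fun x y => (dist x y) ^ (-s))
    (by
      intro u v
      simp only [EuclideanSpace.dist_eq, Real.dist_eq, sq_abs])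
  unfold iInf Ecube enR
  rw [h]
  congr!

end Helper23.Riesz
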