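import Pool.Agent.Helper69.Riesz.StereoA

/-! Common definitions for stage 2 (module TRANS and the Hardin-Saff part), verbatim from the skeleton. -/

set_option autoImplicit false
open MeasureTheory Set Filter Topology
open scoped ENNReal NNReal

namespace Helper23.Riesz

/-- closed cube -/
def cube {d : ℕ} (a : R d) (κ : ℝ) : Set (R d) := {x | ∀ k, a k ≤ x k ∧ x k ≤ a k + κ}

/-- half-open cube -/
def cubo {d : ℕ} (a : R d) (κ : ℝ) : Set (R d) := {x | ∀ k, a k ≤ x k ∧ x k < a k + κ}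

/-- energy of a finite set in flat space -/
noncomputable def enR (s : ℝ) {d : ℕ} (Y : Finset (R d)) : ℝ :=
  open Classical in ∑ x ∈ Y, ∑ y ∈ Y.erase x, (dist x y) ^ (-s)

/-- minimal energy of `N` points in the unit cube -/
noncomputable def Ecube (s : ℝ) (d N : ℕ) : ℝ :=
  sInf {e : ℝ | ∃ Y : Finset (R d), Y.card = N ∧ (∀ x ∈ Y, x ∈ cube (0 : R d) 1) ∧ e = enR s Y}

/-- maximal energy on the sphere (for `s ≤ 0`) -/
noncomputable def Emax (s : ℝ) (d N : ℕ) : ℝ :=
  sSup {e : ℝ | ∃ Y : Finset (S d), Y.card = N ∧ e = en s Y}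

end Helper23.Riesz
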